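import Pool.Agent.Helper29.SH.Goals

/-!
# Project SH (MP_0a002a_al, Shunkov groups), packet QMUL (helper96)
-/

set_option autoImplicit false

namespace Pool.Agent.Helper96.SH

open Subgroup Pool.H83Shunkov Pool.Agent.Helper29.SH

/-- the image of an invariant subgroup is invariant. -/
theorem inv_map {G M : Type} [Group G] [Group M] (π : G →* M) {a : G} {K : Subgroup G}
    (h : Inv a K) : Inv (π a) (K.map π) := by
  rintro k ⟨k', hk', rfl⟩
  refine ⟨a⁻¹ * k' * a, h k' hk', ?_⟩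
  rw [map_mul, map_mul, map_inv]

/-- a subgroup generated by an invariant set is invariant. -/
theorem inv_closure {M : Type} [Group M] {b : M} {s : Set M}
    (h : ∀ x ∈ s, b⁻¹ * x * b ∈ s) : Inv b (closure s) := by
  have h1 : closure s ≤ (closure s).comap (MulAut.conj b⁻¹).toMonoidHom := by
    rw [closure_le]
    intro x hx
    rw [SetLike.mem_coe, mem_comap]
    have h2 : (MulAut.conj b⁻¹).toMonoidHom x = b⁻¹ * x * b := by
      simp
    rw [h2]
    exact subset_closure (h x hx)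
  intro k hk
  have h3 := h1 hk
  rw [mem_comap] at h3
  have h2 : (MulAut.conj b⁻¹).toMonoidHom k = b⁻¹ * k * b := by
    simp
  rwa [h2] at h3

/-- **QMUL** -/
theorem t_QMUL : S_SYC → S_LIFT → S_QMUL := by
  intro hSYC hLIFT G _ a F p q hS hq x y hx hy
  obtain ⟨R₁, hR₁F, hR₁fin, hR₁inv, hR₁q, hxR⟩ := hx
  obtain ⟨R₂, hR₂F, hR₂fin, hR₂inv, hR₂q, hyR⟩ := hy
  obtain ⟨K, hKF, hKfin, hKinv, hxyK⟩ := hS.loc (x * y) (F.mul_mem (hR₁F hxR) (hR₂F hyR))
  obtain ⟨N, hNn, hNS, hNloc⟩ := hS.sep {k : G | k ∈ K ∧ k ≠ 1}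
    (hKfin.subset fun k hk => hk.1) (fun k hk => ⟨hKF hk.1, hk.2⟩)
  have hNK : ∀ k ∈ K, k ∈ N → k = 1 := by
    intro k hk hkN
    by_contra hne
    exact hNS k ⟨hk, hne⟩ hkN
  set π : G →* G ⧸ N := QuotientGroup.mk' N with hπ
  have hπN : ∀ g : G, π g = 1 ↔ g ∈ N := fun g => QuotientGroup.eq_one_iff g
  -- the finite group generated by the images
  set T : Set (G ⧸ N) := (π '' (R₁ : Set G) ∪ π '' (R₂ : Set G)) ∪ π '' (K : Set G) with hT
  have hTfin : T.Finite := ((hR₁fin.image _).union (hR₂fin.image _)).union (hKfin.image _)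
  have hTF : T ⊆ (F.map π : Subgroup (G ⧸ N)) := by
    rintro z ((⟨g, hg, rfl⟩ | ⟨g, hg, rfl⟩) | ⟨g, hg, rfl⟩)
    · exact ⟨g, hR₁F hg, rfl⟩
    · exact ⟨g, hR₂F hg, rfl⟩
    · exact ⟨g, hKF hg, rfl⟩
  set E : Subgroup (G ⧸ N) := closure T with hE
  have hEfin : (E : Set (G ⧸ N)).Finite := by
    have h1 := hNloc hTfin.toFinset (by rw [Set.Finite.coe_toFinset]; exact hTF)
    rwa [Set.Finite.coe_toFinset] at h1
  have hEF : E ≤ F.map π := (closure_le _).2 hTF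
  have hEinv : Inv (π a) E := by
    apply inv_closure
    have key : ∀ (R : Subgroup G), Inv a R → ∀ z ∈ π '' (R : Set G),
        (π a)⁻¹ * z * π a ∈ π '' (R : Set G) := by
      rintro R hR z ⟨g, hg, rfl⟩
      exact ⟨a⁻¹ * g * a, hR g hg, by rw [map_mul, map_mul, map_inv]⟩
    rintro z ((hz | hz) | hz)
    · exact Or.inl (Or.inl (key R₁ hR₁inv z hz))
    · exact Or.inl (Or.inr (key R₂ hR₂inv z hz))
    · exact Or.inr (key K hKinv z hz)
  have hEfpf : FPF (π a) E := by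
    intro e he hcomm
    obtain ⟨f, hf, rfl⟩ := hEF he
    rw [hπN]
    refine hLIFT G a N F hS.loc hS.fpf f hf ?_
    rw [← hπN, map_mul, map_mul, map_mul, map_inv, map_inv, mul_assoc (π a)⁻¹, hcomm]
    group
  have hap : (π a) ^ p = 1 := by rw [← map_pow, hS.ha, map_one]
  obtain ⟨S, hSE, hScard, hSinv, hSmax⟩ := hSYC (G ⧸ N) (π a) E p q hEfin hEinv hEfpf hS.hp hap hq
  have hR₁S : R₁.map π ≤ S := by
    refine hSmax _ ?_ (hR₁q.map π) (inv_map π hR₁inv)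
    rintro z ⟨g, hg, rfl⟩
    exact subset_closure (Or.inl (Or.inl ⟨g, hg, rfl⟩))
  have hR₂S : R₂.map π ≤ S := by
    refine hSmax _ ?_ (hR₂q.map π) (inv_map π hR₂inv)
    rintro z ⟨g, hg, rfl⟩
    exact subset_closure (Or.inl (Or.inr ⟨g, hg, rfl⟩))
  have hxyS : π (x * y) ∈ S := by
    rw [map_mul]
    exact S.mul_mem (hR₁S ⟨x, hxR, rfl⟩) (hR₂S ⟨y, hyR, rfl⟩)
  have : Fact q.Prime := ⟨hq⟩
  have hSq : IsPGroup q S := IsPGroup.of_card hScard
  refine ⟨K ⊓ S.comap π, inf_le_left.trans hKF, hKfin.subset fun k hk => hk.1, ?_, ?_, hxyK, hxyS⟩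
  · rintro k ⟨hk, hkS⟩
    refine ⟨hKinv k hk, ?_⟩
    change π (a⁻¹ * k * a) ∈ S
    rw [map_mul, map_mul, map_inv]
    exact hSinv _ hkS
  · rintro ⟨k, hk, hkS⟩
    obtain ⟨n, hn⟩ := hSq ⟨π k, hkS⟩
    refine ⟨n, ?_⟩
    apply Subtype.ext
    change k ^ q ^ n = 1
    refine hNK _ (K.pow_mem hk _) ?_
    rw [← hπN, map_pow]
    exact congrArg Subtype.val hn

end Pool.Agent.Helper96.SH
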